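import Pool.Agent.Helper795.Wild

/-!
# Weak versus strong `W^{1,p}` closure of homeomorphisms, all `n ≥ 3` and all `1 ≤ p < ∞`

The definitions are in `Pool.Agent.Helper795.SobDefs`, the proof in `Pool.Agent.Helper795.Wild`.
-/

set_option autoImplicit false

open Pool.Agent.Helper795.SobDefs
open scoped ENNReal

namespace Pool.Agent.Results.MP_a6162f_an.ConnectedWeakNotStrong

/-- For every `n ≥ 3` there are bounded connected open `Ω`, `Ω'` and a map `f` which, for every
`1 ≤ p < ∞`, is in the weak but not in the strong `W^{1,p}` closure of the homeomorphisms of `Ω`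
onto `Ω'`. -/
theorem result (n : ℕ) (hn : 3 ≤ n) :
    ∃ (Ω Ω' : Set (Eu n)) (f : Eu n → Eu n),
      IsOpen Ω ∧ IsOpen Ω' ∧ Bornology.IsBounded Ω ∧ Bornology.IsBounded Ω' ∧
      IsConnected Ω ∧ IsConnected Ω' ∧
      ∀ p : ℝ≥0∞, 1 ≤ p → p ≠ ⊤ → f ∈ weakClosureHom p Ω Ω' ∧ f ∉ strongClosureHom p Ω Ω' :=
  Pool.Agent.Helper795.Wild.main n hn

end Pool.Agent.Results.MP_a6162f_an.ConnectedWeakNotStrong
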